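import Pool.Agent.X328.GN.Stm

/-!
# Composition of homogenised polynomials
-/

set_option autoImplicit false

namespace Pool.Agent.X296.TAU

open Finset Polynomial
open Pool.Agent.X328.GN (hm it)

variable {A : Type*} [Field A]

lemma hm_def (d : ℕ) (F P Q : A[X]) :
    hm d F P Q = ∑ i ∈ Finset.range (d + 1), C (F.coeff i) * P ^ i * Q ^ (d - i) := rfl

lemma hm_add (d : ℕ) (F G P Q : A[X]) : hm d (F + G) P Q = hm d F P Q + hm d G P Q := by
  simp only [hm_def]
  rw [← Finset.sum_add_distrib]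
  exact Finset.sum_congr rfl fun i _ => by rw [coeff_add, C_add]; ring

lemma hm_C_mul (d : ℕ) (a : A) (F P Q : A[X]) : hm d (C a * F) P Q = C a * hm d F P Q := by
  simp only [hm_def]
  rw [Finset.mul_sum]
  exact Finset.sum_congr rfl fun i _ => by rw [coeff_C_mul, C_mul]; ring

lemma hm_zero (d : ℕ) (P Q : A[X]) : hm d 0 P Q = 0 := by
  simp only [hm_def]
  exact Finset.sum_eq_zero fun i _ => by rw [coeff_zero, C_0]; ring

lemma hm_sum {ι : Type*} (d : ℕ) (s : Finset ι) (f : ι → A[X]) (P Q : A[X]) :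
    hm d (∑ i ∈ s, f i) P Q = ∑ i ∈ s, hm d (f i) P Q := by
  classical
  induction s using Finset.induction_on with
  | empty => rw [Finset.sum_empty, Finset.sum_empty, hm_zero]
  | insert a s ha ih => rw [Finset.sum_insert ha, Finset.sum_insert ha, hm_add, ih]

lemma hm_mono {d i : ℕ} (hi : i ≤ d) (P Q : A[X]) : hm d (X ^ i) P Q = P ^ i * Q ^ (d - i) := by
  simp only [hm_def]
  rw [Finset.sum_eq_single i]
  · rw [coeff_X_pow, if_pos rfl, C_1, one_mul]
  · intro j _ hj
    rw [coeff_X_pow, if_neg hj, C_0]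
    ring
  · intro h
    exact absurd (Finset.mem_range.2 (by omega)) h

lemma as_sum {m : ℕ} {G : A[X]} (hG : G.natDegree ≤ m) :
    G = ∑ i ∈ Finset.range (m + 1), C (G.coeff i) * X ^ i :=
  as_sum_range_C_mul_X_pow' G (by omega)

lemma hm_mul {m n : ℕ} {G H : A[X]} (hG : G.natDegree ≤ m) (hH : H.natDegree ≤ n) (P Q : A[X]) :
    hm (m + n) (G * H) P Q = hm m G P Q * hm n H P Q := by
  have h1 : G * H = ∑ i ∈ Finset.range (m + 1), ∑ j ∈ Finset.range (n + 1),
      C (G.coeff i * H.coeff j) * X ^ (i + j) := by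
    conv_lhs => rw [as_sum hG, as_sum hH]
    rw [Finset.sum_mul_sum]
    exact Finset.sum_congr rfl fun i _ => Finset.sum_congr rfl fun j _ => by
      rw [C_mul, pow_add]; ring
  rw [h1, hm_sum]
  simp only [hm_def]
  rw [Finset.sum_mul_sum]
  refine Finset.sum_congr rfl fun i hi => ?_
  rw [← hm_def, hm_sum]
  refine Finset.sum_congr rfl fun j hj => ?_
  have hi' : i ≤ m := by have := Finset.mem_range.1 hi; omega
  have hj' : j ≤ n := by have := Finset.mem_range.1 hj; omega
  rw [hm_C_mul, hm_mono (by omega), C_mul, show m + n - (i + j) = (m - i) + (n - j) by omega,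
    pow_add, pow_add]
  ring

lemma hm_pow {m : ℕ} {G : A[X]} (hG : G.natDegree ≤ m) (P Q : A[X]) (i : ℕ) :
    hm (i * m) (G ^ i) P Q = hm m G P Q ^ i := by
  induction i with
  | zero =>
    rw [zero_mul, pow_zero, pow_zero]
    have := hm_mono (A := A) (le_refl 0) P Q
    rw [pow_zero, pow_zero, pow_zero, one_mul] at this
    exact this
  | succ i ih =>
    rw [Nat.succ_mul, pow_succ, pow_succ, hm_mul _ hG, ih]
    exact natDegree_pow_le.trans (Nat.mul_le_mul_left i hG)

/-- composition -/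
lemma hm_hm {n m : ℕ} {G H : A[X]} (hG : G.natDegree ≤ m) (hH : H.natDegree ≤ m)
    (F P Q : A[X]) : hm (n * m) (hm n F G H) P Q = hm n F (hm m G P Q) (hm m H P Q) := by
  conv_lhs => rw [hm_def n F G H]
  conv_rhs => rw [hm_def n F]
  rw [hm_sum]
  refine Finset.sum_congr rfl fun i hi => ?_
  have hi' : i ≤ n := by have := Finset.mem_range.1 hi; omega
  have e : n * m = i * m + (n - i) * m := by rw [← Nat.add_mul]; congr 1; omega
  rw [mul_assoc, hm_C_mul, e, hm_mul (natDegree_pow_le.trans (Nat.mul_le_mul_left i hG))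
    (natDegree_pow_le.trans (Nat.mul_le_mul_left _ hH)), hm_pow hG, hm_pow hH, mul_assoc]

lemma hm_lin (a b : A) (P Q : A[X]) : hm 1 (C a * X + C b) P Q = C a * P + C b * Q := by
  have h1 := hm_mono (A := A) (le_refl 1) P Q
  have h0 := hm_mono (A := A) (Nat.zero_le 1) P Q
  rw [pow_one, pow_one, Nat.sub_self, pow_zero, mul_one] at h1
  rw [pow_zero, pow_zero, one_mul, Nat.sub_zero, pow_one] at h0
  have h2 : hm 1 (C b : A[X]) P Q = C b * Q := by
    have h3 := hm_C_mul 1 b 1 P Q
    rwa [mul_one, h0] at h3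
  rw [hm_add, hm_C_mul, h1, h2]

lemma hm_X {d : ℕ} {F : A[X]} (hF : F.natDegree ≤ d) : hm d F X 1 = F := by
  simp only [hm_def]
  conv_rhs => rw [as_sum hF]
  exact Finset.sum_congr rfl fun i _ => by rw [one_pow, mul_one]

lemma hm_smul (d : ℕ) (F P Q : A[X]) (s : A) :
    hm d F (C s * P) (C s * Q) = C (s ^ d) * hm d F P Q := by
  simp only [hm_def]
  rw [Finset.mul_sum]
  refine Finset.sum_congr rfl fun i hi => ?_
  have hi' : i ≤ d := by have := Finset.mem_range.1 hi; omega
  have e : (C (s ^ d) : A[X]) = C s ^ i * C s ^ (d - i) := by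
    rw [← C_pow, ← C_pow, ← C_mul, ← pow_add]
    congr 2
    omega
  rw [e, mul_pow, mul_pow]
  ring

/-- the computation for one of the two equations -/
lemma step {d : ℕ} {p q u w : A[X]} (hp : p.natDegree ≤ d) (hq : q.natDegree ≤ d)
    (hu : u.natDegree ≤ d) (hw : w.natDegree ≤ d) {a b c e s : A}
    (h1 : hm d u (C a * X + C b) (C c * X + C e) = C s * (C a * p + C b * q))
    (h2 : hm d w (C a * X + C b) (C c * X + C e) = C s * (C c * p + C e * q))
    {v : A[X]} {a' b' : A}
    (h3 : hm d v (C a * X + C b) (C c * X + C e) = C s * (C a' * p + C b' * q)) :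
    hm (d ^ 2) (hm d v u w) (C a * X + C b) (C c * X + C e) =
      C (s ^ d * s) * (C a' * hm d p p q + C b' * hm d q p q) := by
  have hlin : ∀ a b : A, (C a * X + C b : A[X]).natDegree ≤ 1 := fun a b =>
    natDegree_linear_le
  rw [sq, hm_hm hu hw, h1, h2, hm_smul, ← hm_lin a b, ← hm_lin c e,
    ← hm_hm (n := d) (hlin a b) (hlin c e), h3, mul_one, hm_C_mul, hm_add, hm_C_mul, hm_C_mul,
    C_mul, mul_assoc]

end Pool.Agent.X296.TAU
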