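import Pool.Agent.X328.TAU.Stm2
import Pool.Agent.X296.TAU.Hm

/-!
# The second iterates of conjugate maps are conjugate
-/

set_option autoImplicit false

namespace Pool.Agent.X296.TAU

open Finset Polynomial
open Pool.Agent.X328.GN (hm it)

universe u

theorem t_C2 : Pool.Agent.X328.TAU.S_C2.{u} := by
  intro K _ d p q u w hd hp hq hu hw h
  obtain ⟨a, b, c, e, hdet, s, hs, h1, h2⟩ := h
  have i1 : ∀ u w : K[X], u.natDegree ≤ d → w.natDegree ≤ d → it d u w 1 = (u, w) := by
    intro u w hu hw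
    change (hm d u X 1, hm d w X 1) = (u, w)
    rw [hm_X hu, hm_X hw]
  have i2 : ∀ u w : K[X], u.natDegree ≤ d → w.natDegree ≤ d →
      it d u w 2 = (hm d u u w, hm d w u w) := by
    intro u w hu hw
    change (hm d u (it d u w 1).1 (it d u w 1).2, hm d w (it d u w 1).1 (it d u w 1).2) = _
    rw [i1 u w hu hw]
  rw [i2 p q hp hq, i2 u w hu hw]
  refine ⟨a, b, c, e, hdet, s ^ d * s, mul_ne_zero (pow_ne_zero d hs) hs, ?_, ?_⟩
  · exact step hp hq hu hw h1 h2 h1
  · exact step hp hq hu hw h1 h2 h2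

end Pool.Agent.X296.TAU
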